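import Pool.Agent.Y315.NL.Stm

/-!
# Covering of the zero set by small squares, and its length
-/

set_option autoImplicit false

open MeasureTheory Set Filter Topology
open scoped ENNReal

namespace Pool.Agent.Y287.NL

open Pool.Agent.Y315.NL

/-- a shift which avoids a countable set -/
theorem exists_shift {Bx : Set ℝ} (hB : Bx.Countable) (a : ℝ) {h : ℝ} (hh : 0 < h) :
    ∃ th : ℝ, 0 < th ∧ th < h ∧ ∀ i : ℕ, a - th + i * h ∉ Bx := by
  have h1 : (⋃ i : ℕ, (fun x : ℝ => a + i * h - x) '' Bx).Countable :=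
    countable_iUnion fun i => hB.image _
  have h2 : Dense (⋃ i : ℕ, (fun x : ℝ => a + i * h - x) '' Bx)ᶜ := h1.dense_compl ℝ
  obtain ⟨th, hth, hth2⟩ := h2.exists_mem_open isOpen_Ioo (nonempty_Ioo.2 hh)
  refine ⟨th, hth2.1, hth2.2, fun i hi => hth ?_⟩
  refine mem_iUnion.2 ⟨i, a - th + i * h, hi, ?_⟩
  show a + i * h - (a - th + i * h) = th
  ring

open Classical in
/-- the number of intervals of a grid which contain a zero -/
theorem edge {g : ℝ → ℝ} {c e η h th A : ℝ} {J : ℕ} (hZ : ZB g (c - η) (e + η) A) (hh : 0 < h)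
    (hth0 : 0 < th) (hth : th < h) (hη : 2 * h ≤ η) (hJ : (J : ℝ) * h ≤ e - c + th + h) :
    (((Finset.range J).filter (fun j : ℕ => ∃ y, c - th + j * h ≤ y ∧
      y ≤ c - th + ((j + 1 : ℕ) : ℝ) * h ∧ g y = 0)).card : ℝ) ≤ 2 * A := by
  set Y : ℕ → ℝ := fun j => c - th + j * h with hY
  have hYlt : ∀ j k : ℕ, j < k → Y (j + 1) ≤ Y k := by
    intro j k hjk
    have : ((j + 1 : ℕ) : ℝ) ≤ k := by exact_mod_cast hjk
    simp only [hY]
    nlinarith
  have hYin : Function.Injective Y := by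
    intro j k hjk
    simp only [hY] at hjk
    have : (j : ℝ) * h = k * h := by linarith
    exact_mod_cast mul_right_cancel₀ hh.ne' this
  have hlo : ∀ j : ℕ, c - η ≤ Y j := by
    intro j
    have : 0 ≤ (j : ℝ) * h := by positivity
    simp only [hY]
    linarith
  have hhi : ∀ j : ℕ, j < J → Y (j + 1) ≤ e + η := by
    intro j hj
    have : ((j + 1 : ℕ) : ℝ) ≤ J := by exact_mod_cast hj
    have h1 : ((j + 1 : ℕ) : ℝ) * h ≤ J * h := by gcongr
    simp only [hY]
    linarith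
  set S0 := (Finset.range J).filter (fun j : ℕ => ∃ y, Y j ≤ y ∧ y < Y (j + 1) ∧ g y = 0) with hS0
  set S1 := (Finset.range J).filter (fun j : ℕ => g (Y (j + 1)) = 0) with hS1
  have hsub : (Finset.range J).filter (fun j : ℕ => ∃ y, c - th + j * h ≤ y ∧
      y ≤ c - th + ((j + 1 : ℕ) : ℝ) * h ∧ g y = 0) ⊆ S0 ∪ S1 := by
    intro j hj
    rw [Finset.mem_filter] at hj
    obtain ⟨hj1, y, hy1, hy2, hy3⟩ := hj
    rw [Finset.mem_union]
    rcases lt_or_eq_of_le hy2 with h1 | h1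
    · left
      exact Finset.mem_filter.2 ⟨hj1, y, hy1, h1, hy3⟩
    · right
      refine Finset.mem_filter.2 ⟨hj1, ?_⟩
      show g (c - th + ((j + 1 : ℕ) : ℝ) * h) = 0
      rw [← h1]
      exact hy3
  have hc1 : (S1.card : ℝ) ≤ A := by
    have h1 := hZ (S1.image fun j => Y (j + 1)) (fun t ht => by
      obtain ⟨j, hj, rfl⟩ := Finset.mem_image.1 ht
      exact (Finset.mem_filter.1 hj).2) (fun t ht => by
      obtain ⟨j, hj, rfl⟩ := Finset.mem_image.1 ht
      have hj' := Finset.mem_range.1 (Finset.mem_filter.1 hj).1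
      exact ⟨hlo _, hhi j hj'⟩)
    rwa [Finset.card_image_of_injective _ (fun j k hjk => by
      have := hYin hjk
      omega)] at h1
  have hc0 : (S0.card : ℝ) ≤ A := by
    have hex : ∀ j ∈ S0, ∃ y, Y j ≤ y ∧ y < Y (j + 1) ∧ g y = 0 := fun j hj =>
      (Finset.mem_filter.1 hj).2
    choose! z hz using hex
    have h1 := hZ (S0.image z) (fun t ht => by
      obtain ⟨j, hj, rfl⟩ := Finset.mem_image.1 ht
      exact (hz j hj).2.2) (fun t ht => by
      obtain ⟨j, hj, rfl⟩ := Finset.mem_image.1 ht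
      have hj' := Finset.mem_range.1 (Finset.mem_filter.1 hj).1
      exact ⟨(hlo j).trans (hz j hj).1, (hz j hj).2.1.le.trans (hhi j hj')⟩)
    rwa [Finset.card_image_of_injOn (fun j hj k hk hjk => by
      by_contra hne
      rcases lt_or_gt_of_ne hne with h2 | h2
      · have h3 := (hz j hj).2.1
        have h4 := (hz k hk).1
        have h5 := hYlt j k h2
        have h6 : z j = z k := hjk
        linarith
      · have h3 := (hz k hk).2.1
        have h4 := (hz j hj).1
        have h5 := hYlt k j h2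
        have h6 : z j = z k := hjk
        linarith)] at h1
  have h2 := (Finset.card_le_card hsub).trans (Finset.card_union_le S0 S1)
  have h3 : (((Finset.range J).filter (fun j : ℕ => ∃ y, c - th + j * h ≤ y ∧
      y ≤ c - th + ((j + 1 : ℕ) : ℝ) * h ∧ g y = 0)).card : ℝ) ≤ S0.card + S1.card := by
    exact_mod_cast h2
  linarith

open Classical in
theorem card_prod (I J : ℕ) (P : ℕ → ℕ → Prop) {K : ℝ}
    (hP : ∀ i, (((Finset.range J).filter (P i)).card : ℝ) ≤ K) :
    (((Finset.range I ×ˢ Finset.range J).filter (fun p => P p.1 p.2)).card : ℝ) ≤ I * K := by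
  have h1 : ((Finset.range I ×ˢ Finset.range J).filter (fun p => P p.1 p.2)).card =
      ∑ i ∈ Finset.range I, ((Finset.range J).filter (P i)).card := by
    rw [Finset.card_filter, Finset.sum_product]
    refine Finset.sum_congr rfl fun i _ => ?_
    rw [Finset.card_filter]
  rw [h1]
  push_cast
  calc ∑ i ∈ Finset.range I, (((Finset.range J).filter (P i)).card : ℝ)
      ≤ ∑ _i ∈ Finset.range I, K := Finset.sum_le_sum fun i _ => hP i
    _ = I * K := by rw [Finset.sum_const, Finset.card_range, nsmul_eq_mul]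

open Classical in
theorem card_prod' (I J : ℕ) (P : ℕ → ℕ → Prop) {K : ℝ}
    (hP : ∀ j, (((Finset.range I).filter (fun i => P i j)).card : ℝ) ≤ K) :
    (((Finset.range I ×ˢ Finset.range J).filter (fun p => P p.1 p.2)).card : ℝ) ≤ J * K := by
  have h1 : ((Finset.range I ×ˢ Finset.range J).filter (fun p => P p.1 p.2)).card =
      ∑ j ∈ Finset.range J, ((Finset.range I).filter (fun i => P i j)).card := by
    rw [Finset.card_filter, Finset.sum_product_right]
    refine Finset.sum_congr rfl fun i _ => ?_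
    rw [Finset.card_filter]
  rw [h1]
  push_cast
  calc ∑ j ∈ Finset.range J, (((Finset.range I).filter (fun i => P i j)).card : ℝ)
      ≤ ∑ _j ∈ Finset.range J, K := Finset.sum_le_sum fun j _ => hP j
    _ = J * K := by rw [Finset.sum_const, Finset.card_range, nsmul_eq_mul]

/-- the grid index of a point -/
theorem grid {a b th h x : ℝ} (hh : 0 < h) (hth0 : 0 < th)
    (hax : a ≤ x) (hxb : x ≤ b) :
    ∃ i : ℕ, i < ⌊(b - a + th) / h⌋₊ + 1 ∧ a - th + i * h ≤ x ∧
      x ≤ a - th + ((i + 1 : ℕ) : ℝ) * h := by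
  have h0 : 0 ≤ (x - a + th) / h := by
    apply div_nonneg _ hh.le
    linarith
  refine ⟨⌊(x - a + th) / h⌋₊, ?_, ?_, ?_⟩
  · have : ⌊(x - a + th) / h⌋₊ ≤ ⌊(b - a + th) / h⌋₊ := by
      apply Nat.floor_le_floor
      gcongr
    omega
  · have h1 := Nat.floor_le h0
    rw [le_div_iff₀ hh] at h1
    linarith
  · have h1 := Nat.lt_floor_add_one ((x - a + th) / h)
    rw [div_lt_iff₀ hh] at h1
    push_cast
    linarith

theorem floor_bd {a b th h : ℝ} (hh : 0 < h) (hth0 : 0 < th) (hth : th < h) (hab : a < b) :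
    ((⌊(b - a + th) / h⌋₊ + 1 : ℕ) : ℝ) * h ≤ b - a + th + h ∧
    ((⌊(b - a + th) / h⌋₊ + 1 : ℕ) : ℝ) ≤ (b - a) / h + 2 := by
  have h0 : 0 ≤ (b - a + th) / h := by
    apply div_nonneg _ hh.le
    linarith
  have h1 := Nat.floor_le h0
  constructor
  · have h2 := h1
    rw [le_div_iff₀ hh] at h2
    push_cast
    linarith
  · have h3 : (b - a + th) / h ≤ (b - a) / h + 1 := by
      rw [add_div]
      have : th / h ≤ 1 := by
        rw [div_le_one hh]
        exact hth.le
      linarith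
    push_cast
    linarith

open Classical in
theorem cov : S_COV := by
  intro a b c e A B η d φ Bx By hab hce hA hB _ hBx hBy hZx hZy hCell h hh hhd hη
  obtain ⟨th, hth0, hth, hthx⟩ := exists_shift hBx a hh
  obtain ⟨tk, htk0, htk, htky⟩ := exists_shift hBy c hh
  set X : ℕ → ℝ := fun i => a - th + i * h with hX
  set Y : ℕ → ℝ := fun j => c - tk + j * h with hY
  set I : ℕ := ⌊(b - a + th) / h⌋₊ + 1 with hI
  set J : ℕ := ⌊(e - c + tk) / h⌋₊ + 1 with hJ
  obtain ⟨hI1, hI2⟩ := floor_bd hh hth0 hth hab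
  obtain ⟨hJ1, hJ2⟩ := floor_bd hh htk0 htk hce
  rw [← hI] at hI1 hI2
  rw [← hJ] at hJ1 hJ2
  set R := Finset.range I ×ˢ Finset.range J with hR
  set Gs := R.filter (fun p : ℕ × ℕ => ∃ x y, X p.1 ≤ x ∧ x ≤ X (p.1 + 1) ∧ Y p.2 ≤ y ∧
    y ≤ Y (p.2 + 1) ∧ φ x y = 0) with hGs
  refine ⟨Gs.image (fun p => (X p.1, Y p.2)), ?_, ?_⟩
  · -- the cardinality
    set P1 : ℕ → ℕ → Prop := fun i j => ∃ y, c - tk + j * h ≤ y ∧
      y ≤ c - tk + ((j + 1 : ℕ) : ℝ) * h ∧ φ (X i) y = 0 with hP1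
    set P2 : ℕ → ℕ → Prop := fun i j => ∃ y, c - tk + j * h ≤ y ∧
      y ≤ c - tk + ((j + 1 : ℕ) : ℝ) * h ∧ φ (X (i + 1)) y = 0 with hP2
    set P3 : ℕ → ℕ → Prop := fun i j => ∃ x, a - th + i * h ≤ x ∧
      x ≤ a - th + ((i + 1 : ℕ) : ℝ) * h ∧ φ x (Y j) = 0 with hP3
    set P4 : ℕ → ℕ → Prop := fun i j => ∃ x, a - th + i * h ≤ x ∧
      x ≤ a - th + ((i + 1 : ℕ) : ℝ) * h ∧ φ x (Y (j + 1)) = 0 with hP4
    have hc1 : ((R.filter (fun p => P1 p.1 p.2)).card : ℝ) ≤ I * (2 * A) :=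
      card_prod I J P1 fun i => edge (hZx (X i) (hthx i)) hh htk0 htk hη hJ1
    have hc2 : ((R.filter (fun p => P2 p.1 p.2)).card : ℝ) ≤ I * (2 * A) :=
      card_prod I J P2 fun i => edge (hZx (X (i + 1)) (hthx (i + 1))) hh htk0 htk hη hJ1
    have hc3 : ((R.filter (fun p => P3 p.1 p.2)).card : ℝ) ≤ J * (2 * B) :=
      card_prod' I J P3 fun j => edge (g := fun x => φ x (Y j)) (hZy (Y j) (htky j)) hh hth0 hth
        hη hI1
    have hc4 : ((R.filter (fun p => P4 p.1 p.2)).card : ℝ) ≤ J * (2 * B) :=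
      card_prod' I J P4 fun j => edge (g := fun x => φ x (Y (j + 1)))
        (hZy (Y (j + 1)) (htky (j + 1))) hh hth0 hth hη hI1
    have hsub : Gs ⊆ (R.filter (fun p => P1 p.1 p.2) ∪ R.filter (fun p => P2 p.1 p.2)) ∪
        (R.filter (fun p => P3 p.1 p.2) ∪ R.filter (fun p => P4 p.1 p.2)) := by
      intro p hp
      obtain ⟨hpR, x, y, hx1, hx2, hy1, hy2, hz⟩ := Finset.mem_filter.1 hp
      simp only [Finset.mem_union, Finset.mem_filter, hpR, true_and]
      by_contra hcon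
      push Not at hcon
      obtain ⟨⟨n1, n2⟩, n3, n4⟩ := hcon
      have hXs : ∀ i : ℕ, X (i + 1) = X i + h := fun i => by
        simp only [hX]; push_cast; ring
      have hYs : ∀ i : ℕ, Y (i + 1) = Y i + h := fun i => by
        simp only [hY]; push_cast; ring
      refine hCell (X p.1) (X (p.1 + 1)) (Y p.2) (Y (p.2 + 1)) (by rw [hXs]; linarith)
        (by rw [hYs]; linarith) (by rw [hXs]; linarith) (by rw [hYs]; linarith) ?_ ?_ x
        ⟨hx1, hx2⟩ y ⟨hy1, hy2⟩ hz
      · intro u hu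
        refine ⟨fun hzero => n3 ⟨u, hu.1, hu.2, hzero⟩, fun hzero => n4 ⟨u, hu.1, hu.2, hzero⟩⟩
      · intro v hv
        refine ⟨fun hzero => n1 ⟨v, hv.1, hv.2, hzero⟩, fun hzero => n2 ⟨v, hv.1, hv.2, hzero⟩⟩
    have h1 : (Gs.image (fun p => (X p.1, Y p.2))).card ≤
        ((R.filter (fun p => P1 p.1 p.2)).card + (R.filter (fun p => P2 p.1 p.2)).card) +
        ((R.filter (fun p => P3 p.1 p.2)).card + (R.filter (fun p => P4 p.1 p.2)).card) := by
      refine Finset.card_image_le.trans ((Finset.card_le_card hsub).trans ?_)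
      refine (Finset.card_union_le _ _).trans ?_
      exact add_le_add (Finset.card_union_le _ _) (Finset.card_union_le _ _)
    have h2 : ((Gs.image (fun p => (X p.1, Y p.2))).card : ℝ) ≤
        (((R.filter (fun p => P1 p.1 p.2)).card : ℝ) + (R.filter (fun p => P2 p.1 p.2)).card) +
        ((R.filter (fun p => P3 p.1 p.2)).card + (R.filter (fun p => P4 p.1 p.2)).card) := by
      exact_mod_cast h1
    have h3 : (I : ℝ) * A ≤ ((b - a) / h + 2) * A := by gcongr
    have h4 : (J : ℝ) * B ≤ ((e - c) / h + 2) * B := by gcongr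
    linarith
  · intro x y hax hxb hcy hye hz
    obtain ⟨i, hi, hi1, hi2⟩ := grid hh hth0 hax hxb
    obtain ⟨j, hj, hj1, hj2⟩ := grid hh htk0 hcy hye
    refine ⟨(X i, Y j), Finset.mem_image.2 ⟨(i, j), Finset.mem_filter.2 ⟨?_, x, y, hi1, hi2, hj1,
      hj2, hz⟩, rfl⟩, hi1, ?_, hj1, ?_⟩
    · rw [hR, Finset.mem_product, Finset.mem_range, Finset.mem_range]
      exact ⟨hi, hj⟩
    · show x ≤ a - th + i * h + h
      push_cast at hi2
      linarith
    · show y ≤ c - tk + j * h + h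
      push_cast at hj2
      linarith

end Pool.Agent.Y287.NL
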