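import Pool.Agent.Y315.NL.Stm

/-!
# From the coverings to the length
-/

set_option autoImplicit false

open MeasureTheory Set Filter Topology
open scoped ENNReal

namespace Pool.Agent.Y287.NL

open Pool.Agent.Y315.NL

theorem len : S_LEN := by
  intro a b c e A B h₀ φ hab hce hA hB hh₀ hcov
  have hhn : ∀ n : ℕ, 0 < h₀ / (n + 1) ∧ h₀ / (n + 1) ≤ h₀ := fun n =>
    ⟨by positivity, div_le_self hh₀.le (by have : (0 : ℝ) ≤ n := Nat.cast_nonneg n; linarith)⟩
  choose F hF1 hF2 using fun n : ℕ => hcov (h₀ / (n + 1)) (hhn n).1 (hhn n).2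
  set hn : ℕ → ℝ := fun n => h₀ / (n + 1) with hhdef
  have hlim : Tendsto hn atTop (𝓝 0) := tendsto_const_div_atTop_nhds_zero_nat h₀ |>.comp
    (tendsto_add_atTop_nat 1) |>.congr fun n => by simp [hhdef]
  have hpos : ∀ n, 0 < hn n := fun n => (hhn n).1
  set s : Set (EuclideanSpace ℝ (Fin 2)) := {p | a ≤ p 0 ∧ p 0 ≤ b ∧ c ≤ p 1 ∧ p 1 ≤ e ∧
    φ (p 0) (p 1) = 0} with hs
  set t : ∀ n : ℕ, {p // p ∈ F n} → Set (EuclideanSpace ℝ (Fin 2)) := fun n p =>
    {z | p.1.1 ≤ z 0 ∧ z 0 ≤ p.1.1 + hn n ∧ p.1.2 ≤ z 1 ∧ z 1 ≤ p.1.2 + hn n} with ht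
  have hdiam : ∀ n (p : {p // p ∈ F n}), Metric.ediam (t n p) ≤ ENNReal.ofReal (√2 * hn n) := by
    intro n p
    refine Metric.ediam_le fun z hz w hw => ?_
    rw [edist_dist]
    refine ENNReal.ofReal_le_ofReal ?_
    rw [EuclideanSpace.dist_eq, Fin.sum_univ_two]
    have h2 : √2 * hn n = √(2 * hn n ^ 2) := by
      rw [Real.sqrt_mul (by norm_num), Real.sqrt_sq (hpos n).le]
    rw [h2]
    apply Real.sqrt_le_sqrt
    have h3 : dist (z 0) (w 0) ≤ hn n := by
      rw [Real.dist_eq, abs_le]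
      constructor <;> linarith [hz.1, hz.2.1, hw.1, hw.2.1]
    have h4 : dist (z 1) (w 1) ≤ hn n := by
      rw [Real.dist_eq, abs_le]
      constructor <;> linarith [hz.2.2.1, hz.2.2.2, hw.2.2.1, hw.2.2.2]
    have h5 : dist (z 0) (w 0) ^ 2 ≤ hn n ^ 2 := by gcongr
    have h6 : dist (z 1) (w 1) ^ 2 ≤ hn n ^ 2 := by gcongr
    linarith
  have hr : Tendsto (fun n => ENNReal.ofReal (√2 * hn n)) atTop (𝓝 0) := by
    have h1 : Tendsto (fun n => √2 * hn n) atTop (𝓝 (√2 * 0)) := hlim.const_mul _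
    rw [mul_zero] at h1
    have h2 := ENNReal.tendsto_ofReal h1
    rwa [ENNReal.ofReal_zero] at h2
  have hmain := Measure.hausdorffMeasure_le_liminf_sum (X := EuclideanSpace ℝ (Fin 2)) 1 s
    (l := atTop) (fun n => ENNReal.ofReal (√2 * hn n)) hr t
    (Eventually.of_forall fun n p => hdiam n p)
    (Eventually.of_forall fun n z hz => by
      obtain ⟨p, hp, h1, h2, h3, h4⟩ := hF2 n (z 0) (z 1) hz.1 hz.2.1 hz.2.2.1 hz.2.2.2.1
        hz.2.2.2.2
      exact mem_iUnion.2 ⟨⟨p, hp⟩, h1, h2, h3, h4⟩)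
  refine hmain.trans ?_
  set v : ℕ → ℝ := fun n => 4 * √2 * ((b - a + 2 * hn n) * A + (e - c + 2 * hn n) * B) with hv
  have hvlim : Tendsto (fun n => ENNReal.ofReal (v n)) atTop
      (𝓝 (ENNReal.ofReal (4 * √2 * ((b - a) * A + (e - c) * B)))) := by
    refine ENNReal.tendsto_ofReal ?_
    have h1 : Tendsto (fun n => b - a + 2 * hn n) atTop (𝓝 (b - a + 2 * 0)) :=
      (hlim.const_mul 2).const_add _
    have h2 : Tendsto (fun n => e - c + 2 * hn n) atTop (𝓝 (e - c + 2 * 0)) :=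
      (hlim.const_mul 2).const_add _
    have h3 := ((h1.mul_const A).add (h2.mul_const B)).const_mul (4 * √2)
    simpa using h3
  rw [← hvlim.liminf_eq]
  refine liminf_le_liminf (Eventually.of_forall fun n => ?_)
  show ∑ i, Metric.ediam (t n i) ^ (1 : ℝ) ≤ ENNReal.ofReal (v n)
  calc ∑ i, Metric.ediam (t n i) ^ (1 : ℝ)
      ≤ ∑ _i : {p // p ∈ F n}, ENNReal.ofReal (√2 * hn n) := by
        refine Finset.sum_le_sum fun i _ => ?_
        rw [ENNReal.rpow_one]
        exact hdiam n i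
    _ = ((F n).card : ℝ≥0∞) * ENNReal.ofReal (√2 * hn n) := by
        rw [Finset.sum_const, nsmul_eq_mul, Finset.card_univ, Fintype.card_coe]
    _ = ENNReal.ofReal ((F n).card * (√2 * hn n)) := by
        rw [ENNReal.ofReal_mul (Nat.cast_nonneg _), ENNReal.ofReal_natCast]
    _ ≤ ENNReal.ofReal (v n) := by
        refine ENNReal.ofReal_le_ofReal ?_
        have h1 := hF1 n
        have h2 : 0 < √2 * hn n := mul_pos (by positivity) (hpos n)
        have h3 := mul_le_mul_of_nonneg_right h1 h2.le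
        refine h3.trans (le_of_eq ?_)
        have h4 : hn n ≠ 0 := (hpos n).ne'
        simp only [hv]
        have e1 : (b - a) / (h₀ / (n + 1)) * hn n = b - a := div_mul_cancel₀ _ h4
        have e2 : (e - c) / (h₀ / (n + 1)) * hn n = e - c := div_mul_cancel₀ _ h4
        linear_combination (4 * √2 * A) * e1 + (4 * √2 * B) * e2

end Pool.Agent.Y287.NL
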